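import Mathlib

set_option autoImplicit false

/-!
# Elementary inequalities with `log x / x` and the growth lemma
-/

namespace Pool.Agent.helper5.Buss

open Real Finset

/-- `log x / x` -/
noncomputable def hh (x : ℝ) : ℝ := log x / x

theorem exp_one_le_three : exp 1 ≤ 3 := by
  have := Real.exp_one_lt_d9
  linarith

theorem hh_anti {x y : ℝ} (hx : 3 ≤ x) (hxy : x ≤ y) : hh y ≤ hh x :=
  Real.log_div_self_antitoneOn (show exp 1 ≤ x from exp_one_le_three.trans hx)
    (show exp 1 ≤ y from exp_one_le_three.trans (hx.trans hxy)) hxy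

theorem hh_nonneg {x : ℝ} (hx : 1 ≤ x) : 0 ≤ hh x := div_nonneg (log_nonneg hx) (by linarith)

theorem log_eight : log 8 = 3 * log 2 := by
  rw [show (8 : ℝ) = 2 ^ 3 by norm_num, log_pow]
  norm_num

theorem log_64 : log 64 = 6 * log 2 := by
  rw [show (64 : ℝ) = 2 ^ 6 by norm_num, log_pow]
  norm_num

theorem two_le_log {u : ℝ} (hu : 8 ≤ u) : 2 ≤ log u := by
  have h1 : log 8 ≤ log u := log_le_log (by norm_num) hu
  have h2 := Real.log_two_gt_d9
  rw [log_eight] at h1
  linarith

/-- two different primes -/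
theorem hh_two {S u v : ℝ} (hS : 64 ≤ S) (hu : 3 ≤ u) (huv : u < v) (hS2 : u * v < S ^ 2) :
    2 * hh S ≤ hh u + hh v := by
  have hu0 : 0 < u := by linarith
  have hS0 : 0 < S := by linarith
  have huS : u < S := by
    by_contra hcon
    rw [not_lt] at hcon
    nlinarith
  have hv : v < S / u * S := by
    rw [div_mul_eq_mul_div, lt_div_iff₀ hu0]
    nlinarith
  have hhv : hh (S / u * S) ≤ hh v := hh_anti (by linarith) hv.le
  rcases le_or_gt 8 u with h8 | h8
  · have hlu := two_le_log h8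
    have ha : 1 < S / u := by rwa [lt_div_iff₀ hu0, one_mul]
    set a := S / u with haa
    have ha0 : 0 < a := by linarith
    have hSa : S = a * u := by rw [haa]; field_simp
    have hla : log a ≤ a - 1 := log_le_sub_one_of_pos ha0
    have hlS : log S = log a + log u := by rw [hSa, log_mul ha0.ne' hu0.ne']
    have hlaS : log (a * S) = 2 * log a + log u := by
      rw [log_mul ha0.ne' hS0.ne', hlS]; ring
    have key : 2 * hh S ≤ hh u + hh (a * S) := by
      unfold hh
      rw [hlaS, hlS, hSa]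
      have h1 : log u / u + (2 * log a + log u) / (a * (a * u)) - 2 * ((log a + log u) / (a * u)) =
          (a - 1) * ((a - 1) * log u - 2 * log a) / (a ^ 2 * u) := by
        field_simp
        ring
      have h2 : 0 ≤ (a - 1) * ((a - 1) * log u - 2 * log a) / (a ^ 2 * u) := by
        apply div_nonneg _ (by positivity)
        apply mul_nonneg (by linarith)
        nlinarith
      linarith
    linarith
  · have h1 : hh 8 ≤ hh u := hh_anti hu h8.le
    have h2 : hh S ≤ hh 64 := hh_anti (by norm_num) hS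
    have h3 : 2 * hh 64 ≤ hh 8 := by
      unfold hh
      rw [log_64, log_eight]
      have := Real.log_two_gt_d9
      linarith
    have h4 : 0 ≤ hh v := hh_nonneg (by linarith)
    linarith

/-- one small prime -/
theorem hh_one {S u : ℝ} (hS : 64 ≤ S) (hu : 3 ≤ u) (huS : u ≤ S / 3) : 2 * hh S ≤ hh u := by
  have hS0 : 0 < S := by linarith
  have h1 : hh (S / 3) ≤ hh u := hh_anti hu huS
  have h2 : hh (S / 3) = 3 * (log S - log 3) / S := by
    unfold hh
    rw [log_div hS0.ne' (by norm_num)]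
    field_simp
  have h3 : log 3 * 3 ≤ log S := by
    have h4 : log 27 ≤ log S := log_le_log (by norm_num) (by linarith)
    rw [show (27 : ℝ) = 3 ^ 3 by norm_num, log_pow] at h4
    push_cast at h4
    linarith
  have h5 : 2 * hh S ≤ hh (S / 3) := by
    rw [h2]
    unfold hh
    rw [mul_div_assoc', div_le_div_iff_of_pos_right hS0]
    linarith
  linarith

/-- harmonic sums -/
theorem harm {a N : ℕ} (ha : 1 ≤ a) (haN : a ≤ N) :
    log N - log a ≤ ∑ n ∈ Ico a N, 1 / (n : ℝ) := by
  induction N, haN using Nat.le_induction with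
  | base => simp
  | succ N hN ih =>
    rw [Finset.sum_Ico_succ_top hN]
    have hN0 : (0 : ℝ) < N := by exact_mod_cast (show 0 < N by omega)
    have h1 : log ((N : ℝ) + 1) - log N ≤ 1 / (N : ℝ) := by
      rw [← log_div (by positivity) hN0.ne']
      have h2 := log_le_sub_one_of_pos (x := ((N : ℝ) + 1) / N) (by positivity)
      have h3 : ((N : ℝ) + 1) / N - 1 = 1 / N := by field_simp; ring
      linarith
    push_cast
    linarith

/-- the growth lemma -/
theorem grow_false {S : ℕ → ℝ} {s κ C : ℝ} {n0 : ℕ} (hs : 0 < s) (hκ : s < κ)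
    (hS1 : ∀ n, n0 ≤ n → 1 ≤ S n) (hmono : ∀ n, n0 ≤ n → S n ≤ S (n + 1))
    (hstep : ∀ n, n0 ≤ n → S (n + 1) ≤ S n + 2 * s * log (S n))
    (htop : Filter.Tendsto S Filter.atTop Filter.atTop)
    (hsum : ∀ N, n0 ≤ N → κ * ∑ n ∈ Ico n0 N, 2 * hh (S n) ≤ log (S N) + C) : False := by
  have hκ0 : 0 < κ := hs.trans hκ
  -- monotonicity
  have hmono' : ∀ a b, n0 ≤ a → a ≤ b → S a ≤ S b := by
    intro a b ha hab
    induction b, hab using Nat.le_induction with
    | base => exact le_rfl
    | succ b hb ih => exact ih.trans (hmono b (ha.trans hb))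
  have hlin : ∀ n, n0 ≤ n → S n ≤ S n0 + 2 * s * ((n : ℝ) - n0) * log (S n) := by
    intro n hn
    induction n, hn using Nat.le_induction with
    | base => simp
    | succ n hn ih =>
      have h1 := hstep n hn
      have h2 : log (S n) ≤ log (S (n + 1)) := log_le_log (by have := hS1 n hn; linarith) (hmono n hn)
      have h3 : (0 : ℝ) ≤ (n : ℝ) - n0 := by
        have : (n0 : ℝ) ≤ n := by exact_mod_cast hn
        linarith
      have h4 : 2 * s * ((n : ℝ) - n0) * log (S n) ≤ 2 * s * ((n : ℝ) - n0) * log (S (n + 1)) :=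
        mul_le_mul_of_nonneg_left h2 (by positivity)
      have h5 : 2 * s * log (S n) ≤ 2 * s * log (S (n + 1)) :=
        mul_le_mul_of_nonneg_left h2 (by positivity)
      push_cast
      linarith
  -- the constants
  obtain ⟨ε, hε0, hε1, hε⟩ : ∃ ε : ℝ, 0 < ε ∧ ε < 1 / 2 ∧ 1 < κ / s * (1 - ε) * (1 - ε) := by
    have hθ : 1 < κ / s := by rwa [lt_div_iff₀ hs, one_mul]
    have hc : Filter.Tendsto (fun ε : ℝ => κ / s * (1 - ε) * (1 - ε)) (nhds 0)
        (nhds (κ / s * (1 - 0) * (1 - 0))) := by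
      apply Continuous.tendsto
      fun_prop
    rw [sub_zero, mul_one, mul_one] at hc
    have h1 := hc.eventually (lt_mem_nhds hθ)
    have h2 : ∀ᶠ ε : ℝ in nhdsWithin 0 (Set.Ioi 0), 1 < κ / s * (1 - ε) * (1 - ε) :=
      h1.filter_mono nhdsWithin_le_nhds
    have h3 : ∀ᶠ ε : ℝ in nhdsWithin 0 (Set.Ioi 0), ε ∈ Set.Ioo (0 : ℝ) (1 / 2) :=
      Ioo_mem_nhdsGT (by norm_num)
    obtain ⟨ε, he1, he2⟩ := (h2.and h3).exists
    exact ⟨ε, he2.1, he2.2, he1⟩
  -- large indices
  obtain ⟨n1, hn1⟩ := Filter.eventually_atTop.1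
    ((htop.eventually_ge_atTop (S n0 / ε)).and (Filter.eventually_ge_atTop (max n0 1)))
  have hn1' := hn1 n1 le_rfl
  have hn10 : n0 ≤ n1 := (le_max_left _ _).trans hn1'.2
  have hn11 : 1 ≤ n1 := (le_max_right _ _).trans hn1'.2
  have hbig : ∀ n, n1 ≤ n → S n0 ≤ ε * S n := by
    intro n hn
    have h1 := (hn1 n hn).1
    rw [div_le_iff₀ hε0] at h1
    linarith
  have hterm : ∀ n, n1 ≤ n → (1 - ε) / s * (1 / (n : ℝ)) ≤ 2 * hh (S n) := by
    intro n hn
    have h1 := hlin n (hn10.trans hn)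
    have h2 := hbig n hn
    have h3 := hS1 n (hn10.trans hn)
    have h4 : 0 ≤ log (S n) := log_nonneg h3
    have hn0 : (0 : ℝ) < n := by exact_mod_cast (show 0 < n by omega)
    have h5 : 2 * s * ((n : ℝ) - n0) * log (S n) ≤ 2 * s * n * log (S n) := by
      apply mul_le_mul_of_nonneg_right _ h4
      have : (0 : ℝ) ≤ n0 := Nat.cast_nonneg _
      nlinarith
    have h6 : (1 - ε) * S n ≤ 2 * s * n * log (S n) := by linarith
    unfold hh
    rw [div_mul_div_comm, mul_one, mul_div_assoc', div_le_div_iff₀ (by positivity) (by linarith)]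
    linarith
  -- the upper bound of `log S`
  have hlogS : ∀ n, n1 ≤ n → (1 - ε) * log (S n) ≤ log n + log (2 * s / (ε * (1 - ε))) := by
    intro n hn
    have h3 := hS1 n (hn10.trans hn)
    have hS0 : 0 < S n := by linarith
    have hn0 : (0 : ℝ) < n := by exact_mod_cast (show 0 < n by omega)
    have h1 := hterm n hn
    unfold hh at h1
    rw [div_mul_div_comm, mul_one, mul_div_assoc', div_le_div_iff₀ (by positivity) hS0] at h1
    have h2 : log (S n) ≤ S n ^ ε / ε := Real.log_le_rpow_div hS0.le hε0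
    have h4 : (1 - ε) * S n ≤ 2 * (S n ^ ε / ε) * (s * n) := by
      refine h1.trans ?_
      apply mul_le_mul_of_nonneg_right _ (by positivity)
      linarith
    have h5 : S n ^ (1 - ε) ≤ n * (2 * s / (ε * (1 - ε))) := by
      have h6 : S n = S n ^ (1 - ε) * S n ^ ε := by
        rw [← Real.rpow_add hS0]
        simp
      have h7 : 0 < S n ^ ε := Real.rpow_pos_of_pos hS0 _
      have h8 : (1 - ε) * (S n ^ (1 - ε) * S n ^ ε) ≤ 2 * (S n ^ ε / ε) * (s * n) := by
        rw [← h6]; exact h4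
      have h9 : (1 - ε) * S n ^ (1 - ε) * S n ^ ε ≤ (2 * s * n / ε) * S n ^ ε := by
        calc (1 - ε) * S n ^ (1 - ε) * S n ^ ε = (1 - ε) * (S n ^ (1 - ε) * S n ^ ε) := by ring
          _ ≤ 2 * (S n ^ ε / ε) * (s * n) := h8
          _ = (2 * s * n / ε) * S n ^ ε := by field_simp
      have h10 := le_of_mul_le_mul_right h9 h7
      have h11 : (n : ℝ) * (2 * s / (ε * (1 - ε))) = (2 * s * n / ε) / (1 - ε) := by
        have : (1 - ε) ≠ 0 := by linarith
        field_simp
      rw [h11, le_div_iff₀ (by linarith)]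
      linarith
    have h12 := Real.log_le_log (Real.rpow_pos_of_pos hS0 _) h5
    rw [Real.log_rpow hS0, Real.log_mul hn0.ne' (by
      have : 0 < ε * (1 - ε) := mul_pos hε0 (by linarith)
      positivity)] at h12
    exact h12
  -- the contradiction
  have hfin : ∀ N, n1 ≤ N → κ / s * (1 - ε) * (1 - ε) * (log N - log n1) ≤
      log N + log (2 * s / (ε * (1 - ε))) + (1 - ε) * C := by
    intro N hN
    have h1 := hsum N (hn10.trans hN)
    have h2 : ∑ n ∈ Ico n1 N, 2 * hh (S n) ≤ ∑ n ∈ Ico n0 N, 2 * hh (S n) := by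
      apply Finset.sum_le_sum_of_subset_of_nonneg (Finset.Ico_subset_Ico_left hn10)
      intro n hn _
      have := hh_nonneg (hS1 n (Finset.mem_Ico.1 hn).1)
      linarith
    have h3 : (1 - ε) / s * ∑ n ∈ Ico n1 N, 1 / (n : ℝ) ≤ ∑ n ∈ Ico n1 N, 2 * hh (S n) := by
      rw [Finset.mul_sum]
      exact Finset.sum_le_sum fun n hn => hterm n (Finset.mem_Ico.1 hn).1
    have h4 := harm hn11 hN
    have h5 : (1 - ε) / s * (log N - log n1) ≤ (1 - ε) / s * ∑ n ∈ Ico n1 N, 1 / (n : ℝ) :=
      mul_le_mul_of_nonneg_left h4 (div_nonneg (by linarith) hs.le)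
    have h6 : κ * ((1 - ε) / s * (log N - log n1)) ≤ log (S N) + C :=
      (mul_le_mul_of_nonneg_left (h5.trans (h3.trans h2)) hκ0.le).trans h1
    have h7 := hlogS N hN
    have h8 := mul_le_mul_of_nonneg_left h6 (show (0 : ℝ) ≤ 1 - ε by linarith)
    have h9 : (1 - ε) * (κ * ((1 - ε) / s * (log N - log n1))) =
        κ / s * (1 - ε) * (1 - ε) * (log N - log n1) := by
      field_simp
    rw [h9] at h8
    linarith
  set A := κ / s * (1 - ε) * (1 - ε) with hA
  have hlim : Filter.Tendsto (fun N : ℕ => (A - 1) * log (N : ℝ)) Filter.atTop Filter.atTop :=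
    Filter.Tendsto.const_mul_atTop (by linarith)
      (Real.tendsto_log_atTop.comp tendsto_natCast_atTop_atTop)
  obtain ⟨N, hN1, hN2⟩ := ((hlim.eventually_gt_atTop
    (A * log n1 + log (2 * s / (ε * (1 - ε))) + (1 - ε) * C)).and
    (Filter.eventually_ge_atTop n1)).exists
  have := hfin N hN2
  nlinarith

end Pool.Agent.helper5.Buss
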