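import Pool.Agent.helper5.Buss.Basic
import Pool.Agent.helper5.Buss.An
import Pool.Agent.helper91.Mertens

set_option autoImplicit false

/-!
# Buss's sequence: composite terms need gaps of Cramer size
-/

namespace Pool.Agent.helper5.Buss

open Real Finset

/-- the weight of `B n`, primes at most `y` -/
noncomputable def wt (y m : ℕ) : ℝ := ∑ p ∈ m.primeFactors with p ≤ y, hh (p : ℝ)

theorem hh_prime_nonneg (p : ℕ) : 0 ≤ hh (p : ℝ) :=
  div_nonneg (Real.log_natCast_nonneg p) (Nat.cast_nonneg p)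

theorem wt_one {y m u : ℕ} (hu : u ∈ m.primeFactors) (huy : u ≤ y) : hh (u : ℝ) ≤ wt y m :=
  Finset.single_le_sum (f := fun p : ℕ => hh (p : ℝ)) (fun p _ => hh_prime_nonneg p)
    (Finset.mem_filter.2 ⟨hu, huy⟩)

theorem wt_two {y m u v : ℕ} (hu : u ∈ m.primeFactors) (huy : u ≤ y) (hv : v ∈ m.primeFactors)
    (hvy : v ≤ y) (huv : u ≠ v) : hh (u : ℝ) + hh (v : ℝ) ≤ wt y m := by
  classical
  have h1 : ({u, v} : Finset ℕ) ⊆ m.primeFactors.filter (fun p => p ≤ y) := by
    intro p hp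
    rw [Finset.mem_insert, Finset.mem_singleton] at hp
    rcases hp with rfl | rfl
    · exact Finset.mem_filter.2 ⟨hu, huy⟩
    · exact Finset.mem_filter.2 ⟨hv, hvy⟩
  have h2 := Finset.sum_le_sum_of_subset_of_nonneg (f := fun p : ℕ => hh (p : ℝ)) h1
    (fun p _ _ => hh_prime_nonneg p)
  rw [Finset.sum_pair huv] at h2
  exact h2

/-- a helper: subsets of sets of density zero -/
theorem dens_mono {P R : ℕ → Prop} [DecidablePred P] [DecidablePred R]
    {n0 : ℕ} (hPR : ∀ n, n0 ≤ n → P n → R n)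
    (hR : Filter.Tendsto (fun N : ℕ => (#{n ∈ Icc 1 N | R n} : ℝ) / N) Filter.atTop (nhds 0)) :
    Filter.Tendsto (fun N : ℕ => (#{n ∈ Icc 1 N | P n} : ℝ) / N) Filter.atTop (nhds 0) := by
  have h1 : Filter.Tendsto (fun N : ℕ => (n0 : ℝ) / N) Filter.atTop (nhds 0) :=
    tendsto_const_div_atTop_nhds_zero_nat _
  have h2 := h1.add hR
  rw [add_zero] at h2
  refine squeeze_zero (fun N => by positivity) (fun N => ?_) h2
  rw [← add_div]
  apply div_le_div_of_nonneg_right _ (Nat.cast_nonneg N)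
  have h3 : {n ∈ Icc 1 N | P n} ⊆ range n0 ∪ {n ∈ Icc 1 N | R n} := by
    intro n hn
    rw [Finset.mem_filter] at hn
    rw [Finset.mem_union]
    by_cases hnn : n < n0
    · exact Or.inl (Finset.mem_range.2 hnn)
    · exact Or.inr (Finset.mem_filter.2 ⟨hn.1, hPR n (not_lt.1 hnn) hn.2⟩)
  have h4 := (Finset.card_le_card h3).trans (Finset.card_union_le _ _)
  rw [Finset.card_range] at h4
  exact_mod_cast h4

namespace Bu

variable {f B : ℕ → ℕ} (h : Bu f B)
include h

theorem sum_wt_le {a N y : ℕ} (ha : 1 ≤ a) (hy : 1 ≤ y) :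
    ∑ n ∈ Ico a N, wt y (B n) ≤ log y + log 4 := by
  classical
  have h1 : ∑ n ∈ Ico a N, wt y (B n) =
      ∑ p ∈ (Ico a N).biUnion (fun n => (B n).primeFactors.filter (fun p => p ≤ y)),
        hh (p : ℝ) := by
    rw [Finset.sum_biUnion]
    · rfl
    · intro n hn m hm hnm
      rw [Finset.mem_coe, Finset.mem_Ico] at hn hm
      exact Finset.disjoint_filter_filter (h.disj (by omega) (by omega) hnm)
  rw [h1]
  refine le_trans ?_ (Pool.Agent.helper91.Mertens.upper hy)
  unfold Pool.Agent.helper91.Mertens.M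
  refine Finset.sum_le_sum_of_subset_of_nonneg ?_ (fun p _ _ => hh_prime_nonneg p)
  intro p hp
  rw [Finset.mem_biUnion] at hp
  obtain ⟨n, -, hp⟩ := hp
  rw [Finset.mem_filter] at hp
  rw [Nat.mem_primesLE]
  exact ⟨hp.2, Nat.prime_of_mem_primeFactors hp.1⟩

theorem log_step {n : ℕ} (hn : 1 ≤ n) : log (f (n + 1)) = log (f n) + log (B n) := by
  rw [h.mul n hn]
  push_cast
  rw [Real.log_mul]
  · exact_mod_cast (h.pos n hn).ne'
  · have := h.two n hn
    exact_mod_cast (show B n ≠ 0 by omega)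

theorem log_mono {n m : ℕ} (hn : 1 ≤ n) (hnm : n ≤ m) : log (f n) ≤ log (f m) := by
  induction m, hnm using Nat.le_induction with
  | base => exact le_rfl
  | succ m hm ih =>
    rw [h.log_step (hn.trans hm)]
    have h1 : 0 ≤ log (B m : ℝ) := Real.log_natCast_nonneg _
    linarith

theorem log_ge {n : ℕ} (hn : 1 ≤ n) : ((n : ℝ) - 1) * log 2 ≤ log (f n) := by
  induction n, hn using Nat.le_induction with
  | base => simp [h.one]
  | succ n hn ih =>
    rw [h.log_step hn]
    have h1 : log 2 ≤ log (B n : ℝ) := Real.log_le_log (by norm_num) (by exact_mod_cast h.two n hn)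
    push_cast
    linarith

theorem log_tendsto : Filter.Tendsto (fun n : ℕ => log (f n : ℝ)) Filter.atTop Filter.atTop := by
  have h1 : Filter.Tendsto (fun n : ℕ => ((n : ℝ) - 1) * log 2) Filter.atTop Filter.atTop :=
    Filter.Tendsto.atTop_mul_const (Real.log_pos (by norm_num))
      (Filter.tendsto_atTop_add_const_right _ (-1) tendsto_natCast_atTop_atTop)
  refine Filter.tendsto_atTop_mono' _ ?_ h1
  filter_upwards [Filter.eventually_ge_atTop 1] with n hn
  exact h.log_ge hn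

/-- the common part -/
theorem core {s κ K : ℝ} {m : ℕ} (hs : 0 < s) (hm : 1 ≤ m) (hκ : m * s / 2 < κ) (hK : 1 ≤ K)
    {n0 : ℕ} (hn0 : 1 ≤ n0) (hbad : ∀ n, n0 ≤ n → (B n : ℝ) < (s * log (f n)) ^ m)
    (hw : ∀ N n, n0 ≤ n → n < N → 64 ≤ s * log (f n) →
      κ * (2 * hh (s * log (f n))) ≤ wt ⌊K * log (f N)⌋₊ (B n)) : False := by
  have hm0 : (0 : ℝ) < m := by exact_mod_cast (show 0 < m by omega)
  have htop : Filter.Tendsto (fun n : ℕ => s * log (f n : ℝ)) Filter.atTop Filter.atTop :=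
    Filter.Tendsto.const_mul_atTop hs h.log_tendsto
  obtain ⟨n1, hn1⟩ := Filter.eventually_atTop.1
    (((htop.eventually_ge_atTop 64).and (h.log_tendsto.eventually_ge_atTop 1)).and
      (Filter.eventually_ge_atTop n0))
  have hn01 : n0 ≤ n1 := (hn1 n1 le_rfl).2
  refine grow_false (S := fun n : ℕ => s * log (f n : ℝ)) (s := m * s / 2) (κ := κ)
    (C := log K + log 4 - log s) (n0 := n1) (by positivity) hκ (fun n hn => ?_) (fun n hn => ?_)
    (fun n hn => ?_) htop (fun N hN => ?_)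
  · have := (hn1 n hn).1.1
    linarith
  · exact mul_le_mul_of_nonneg_left (h.log_mono (by omega) (Nat.le_succ n)) hs.le
  · have h1 := hbad n (hn01.trans hn)
    have h64 := (hn1 n hn).1.1
    have h2 : log (B n : ℝ) ≤ m * log (s * log (f n)) := by
      have hB0 : (0 : ℝ) < B n := by
        have := h.two n (by omega)
        exact_mod_cast (show 0 < B n by omega)
      have h4 := Real.log_le_log hB0 h1.le
      rw [Real.log_pow] at h4
      exact h4
    show s * log (f (n + 1)) ≤ s * log (f n) + 2 * (m * s / 2) * log (s * log (f n))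
    rw [h.log_step (by omega)]
    nlinarith
  · rcases eq_or_lt_of_le hN with hN' | hN'
    · subst hN'
      rw [Finset.Ico_self, Finset.sum_empty, mul_zero]
      have h1 := (hn1 n1 le_rfl).1.1
      have h3 : log s ≤ log (s * log (f n1)) := Real.log_le_log hs (by
        have := (hn1 n1 le_rfl).1.2
        nlinarith)
      have h4 : 0 ≤ log K := Real.log_nonneg hK
      have h5 : 0 ≤ log (4 : ℝ) := Real.log_nonneg (by norm_num)
      show 0 ≤ log (s * log (f n1)) + (log K + log 4 - log s)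
      linarith
    · have hL1 : 1 ≤ log (f N : ℝ) := (hn1 N hN).1.2
      have hKL : 1 ≤ K * log (f N) := by nlinarith
      have hy : 1 ≤ ⌊K * log (f N : ℝ)⌋₊ := Nat.le_floor (by exact_mod_cast hKL)
      have h1 := h.sum_wt_le (a := n1) (N := N) (y := ⌊K * log (f N : ℝ)⌋₊) (by omega) hy
      have h2 : κ * ∑ n ∈ Ico n1 N, 2 * hh (s * log (f n)) ≤
          ∑ n ∈ Ico n1 N, wt ⌊K * log (f N : ℝ)⌋₊ (B n) := by
        rw [Finset.mul_sum]
        refine Finset.sum_le_sum fun n hn => ?_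
        rw [Finset.mem_Ico] at hn
        exact hw N n (hn01.trans hn.1) hn.2 (hn1 n hn.1).1.1
      have h3 : log (⌊K * log (f N : ℝ)⌋₊ : ℝ) ≤ log (K * log (f N : ℝ)) :=
        Real.log_le_log (by exact_mod_cast hy) (Nat.floor_le (by linarith))
      have h4 : log (K * log (f N : ℝ)) = log K + log (log (f N : ℝ)) :=
        Real.log_mul (by linarith) (by linarith)
      have h5 : log (s * log (f N : ℝ)) = log s + log (log (f N : ℝ)) :=
        Real.log_mul hs.ne' (by linarith)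
      show κ * ∑ n ∈ Ico n1 N, 2 * hh (s * log (f n)) ≤
        log (s * log (f N : ℝ)) + (log K + log 4 - log s)
      rw [h5]
      linarith

/-- at most `k` prime factors -/
theorem inf_k (k : ℕ) {c : ℝ} (hc : c < 1 / ((k : ℝ) + 1) ^ (k + 1)) (n0 : ℕ) :
    ∃ n, n0 ≤ n ∧ ((B n).primeFactorsList.length ≤ k ∨ c * log (f n) ^ (k + 1) ≤ B n) := by
  by_contra hcon
  push Not at hcon
  have hcon' : ∀ n, max n0 2 ≤ n → k < (B n).primeFactorsList.length ∧
      (B n : ℝ) < c * log (f n) ^ (k + 1) :=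
    fun n hn => hcon n ((le_max_left _ _).trans hn)
  have hk0 : (0 : ℝ) < (k : ℝ) + 1 := by positivity
  have hc0 : 0 < c := by
    have h1 := (hcon' _ le_rfl).2
    by_contra hneg
    rw [not_lt] at hneg
    have h2 : c * log (f (max n0 2) : ℝ) ^ (k + 1) ≤ 0 :=
      mul_nonpos_of_nonpos_of_nonneg hneg (pow_nonneg (Real.log_natCast_nonneg _) _)
    have h3 : (0 : ℝ) ≤ B (max n0 2) := Nat.cast_nonneg _
    linarith
  obtain ⟨s, hs0, hsc⟩ : ∃ s : ℝ, 0 < s ∧ s ^ (k + 1) = c :=
    ⟨c ^ (((k + 1 : ℕ) : ℝ)⁻¹), Real.rpow_pos_of_pos hc0 _,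
      Real.rpow_inv_natCast_pow hc0.le (Nat.succ_ne_zero k)⟩
  have hs1 : s < 1 / ((k : ℝ) + 1) := by
    have h1 : s ^ (k + 1) < (1 / ((k : ℝ) + 1)) ^ (k + 1) := by
      rw [hsc, one_div_pow]
      exact hc
    exact lt_of_pow_lt_pow_left₀ _ (by positivity) h1
  have hs2 : s * ((k : ℝ) + 1) < 1 := by rwa [lt_div_iff₀ hk0] at hs1
  have hs3 : s ≤ 1 := by
    have : (0 : ℝ) ≤ k := Nat.cast_nonneg k
    nlinarith
  refine h.core (s := s) (κ := 1 / 2) (K := 1) (m := k + 1) hs0 (by omega) ?_ le_rfl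
    (n0 := max n0 2) (le_trans (by norm_num) (le_max_right n0 2))
    (fun n hn => ?_) (fun N n hn hnN h64 => ?_)
  · push_cast
    linarith
  · rw [mul_pow, hsc]
    exact (hcon' n hn).2
  have hn2 : 2 ≤ n := (le_max_right _ _).trans hn
  have hn1 : 1 ≤ n := by omega
  obtain ⟨hnp, hB⟩ := hcon' n hn
  have hmem := h.minFac_mem hn1
  have h3 : (3 : ℝ) ≤ (B n).minFac := by exact_mod_cast h.three_le hn2 hmem
  have hsq := h.minFac_pow_le hn1 (show k + 1 ≤ (B n).primeFactorsList.length from hnp)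
  have hsq' : ((B n).minFac : ℝ) ^ (k + 1) ≤ (s * log (f n)) ^ (k + 1) := by
    rw [mul_pow, hsc]
    refine le_trans ?_ hB.le
    exact_mod_cast hsq
  have hu : ((B n).minFac : ℝ) ≤ s * log (f n) :=
    le_of_pow_le_pow_left₀ (Nat.succ_ne_zero k) (by linarith) hsq'
  have hL : log (f n : ℝ) ≤ log (f N) := h.log_mono hn1 hnN.le
  have hL0 : 0 ≤ log (f n : ℝ) := Real.log_natCast_nonneg _
  have huy : (B n).minFac ≤ ⌊1 * log (f N : ℝ)⌋₊ := by
    apply Nat.le_floor
    nlinarith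
  have h4 := wt_one hmem huy
  have h5 := hh_anti h3 hu
  linarith

/-- primes and squares of primes -/
theorem inf_sq {c : ℝ} (hc : c < 1) (n0 : ℕ) :
    ∃ n, n0 ≤ n ∧ ((B n).Prime ∨ (∃ p : ℕ, p.Prime ∧ B n = p ^ 2) ∨
      c * log (f n) ^ 2 ≤ B n) := by
  by_contra hcon
  push Not at hcon
  have hcon' : ∀ n, max n0 2 ≤ n → ¬ (B n).Prime ∧ (∀ p : ℕ, p.Prime → B n ≠ p ^ 2) ∧
      (B n : ℝ) < c * log (f n) ^ 2 :=
    fun n hn => hcon n ((le_max_left _ _).trans hn)
  have hc0 : 0 < c := by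
    have h1 := (hcon' _ le_rfl).2.2
    by_contra hneg
    rw [not_lt] at hneg
    have h2 : c * log (f (max n0 2) : ℝ) ^ 2 ≤ 0 := mul_nonpos_of_nonpos_of_nonneg hneg (sq_nonneg _)
    have h3 : (0 : ℝ) ≤ B (max n0 2) := Nat.cast_nonneg _
    linarith
  have hs0 : 0 < √c := Real.sqrt_pos.2 hc0
  have hsc : √c < 1 := by
    rw [Real.sqrt_lt' (by norm_num)]
    linarith
  refine h.core (s := √c) (κ := 1) (K := 3) (m := 2) hs0 (by norm_num) (by push_cast; linarith)
    (by norm_num) (n0 := max n0 2) (le_trans (by norm_num) (le_max_right n0 2))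
    (fun n hn => ?_) (fun N n hn hnN h64 => ?_)
  · rw [mul_pow, Real.sq_sqrt hc0.le]
    exact (hcon' n hn).2.2
  have hn2 : 2 ≤ n := (le_max_right _ _).trans hn
  have hn1 : 1 ≤ n := by omega
  obtain ⟨hnp, hnsq, hB⟩ := hcon' n hn
  have hB2 := h.two n hn1
  have hmem := h.minFac_mem hn1
  have hup := h.minFac_prime hn1
  have h3 : (3 : ℝ) ≤ (B n).minFac := by exact_mod_cast h.three_le hn2 hmem
  have hBS : (B n : ℝ) < (√c * log (f n)) ^ 2 := by
    rw [mul_pow, Real.sq_sqrt hc0.le]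
    exact hB
  have hL : log (f n : ℝ) ≤ log (f N) := h.log_mono hn1 hnN.le
  have hL0 : 0 ≤ log (f n : ℝ) := Real.log_natCast_nonneg _
  have hSL : √c * log (f n) ≤ log (f N) := by nlinarith
  have husq := Nat.minFac_sq_le_self (n := B n) (by omega) hnp
  have huS : ((B n).minFac : ℝ) < √c * log (f n) := by
    have h5 : ((B n).minFac : ℝ) ^ 2 < (√c * log (f n)) ^ 2 := by
      refine lt_of_le_of_lt ?_ hBS
      exact_mod_cast husq
    exact lt_of_pow_lt_pow_left₀ 2 (by linarith) h5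
  have huy : (B n).minFac ≤ ⌊3 * log (f N : ℝ)⌋₊ := by
    apply Nat.le_floor
    linarith
  rw [one_mul]
  by_cases hex : ∃ v ∈ (B n).primeFactors, v ≠ (B n).minFac
  · -- a second prime
    obtain ⟨v, hv, hvu⟩ := hex
    have hvp := Nat.prime_of_mem_primeFactors hv
    have huv : (B n).minFac < v := lt_of_le_of_ne
      (Nat.minFac_le_of_dvd hvp.two_le (Nat.dvd_of_mem_primeFactors hv)) (Ne.symm hvu)
    have hdvd : (B n).minFac * v ∣ B n :=
      Nat.Coprime.mul_dvd_of_dvd_of_dvd ((Nat.coprime_primes hup hvp).2 (Ne.symm hvu))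
        (Nat.minFac_dvd _) (Nat.dvd_of_mem_primeFactors hv)
    have hle : (B n).minFac * v ≤ B n := Nat.le_of_dvd (by omega) hdvd
    have huv' : ((B n).minFac : ℝ) < v := by exact_mod_cast huv
    have hprod : ((B n).minFac : ℝ) * v < (√c * log (f n)) ^ 2 := by
      refine lt_of_le_of_lt ?_ hBS
      exact_mod_cast hle
    by_cases hvy : v ≤ ⌊3 * log (f N : ℝ)⌋₊
    · exact (hh_two h64 h3 huv' hprod).trans (wt_two hmem huy hv hvy (Ne.symm hvu))
    · have h5 : 3 * log (f N : ℝ) < v := by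
        rw [not_le] at hvy
        exact Nat.lt_of_floor_lt hvy
      have h6 : ((B n).minFac : ℝ) ≤ √c * log (f n) / 3 := by
        rw [le_div_iff₀ (by norm_num)]
        by_contra hc'
        rw [not_le] at hc'
        nlinarith
      exact (hh_one h64 h3 h6).trans (wt_one hmem huy)
  · -- a power `u ^ k`, `3 ≤ k`
    push Not at hex
    have hcube : (B n).minFac ^ 3 ≤ B n := by
      apply h.minFac_pow_le hn1
      by_contra hlen
      rw [not_le] at hlen
      have hprod := Nat.prod_primeFactorsList (n := B n) (by omega)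
      have hall : ∀ x ∈ (B n).primeFactorsList, x = (B n).minFac := fun x hx =>
        hex x (Nat.mem_primeFactors_iff_mem_primeFactorsList.2 hx)
      have hpow : B n = (B n).minFac ^ (B n).primeFactorsList.length := by
        conv_lhs => rw [← hprod]
        exact List.prod_eq_pow_card _ _ hall
      interval_cases hl : (B n).primeFactorsList.length
      · rw [pow_zero] at hpow
        omega
      · rw [pow_one] at hpow
        exact hnp (hpow ▸ hup)
      · exact hnsq _ hup hpow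
    have h6 : ((B n).minFac : ℝ) ≤ √c * log (f n) / 3 := by
      rw [le_div_iff₀ (by norm_num)]
      by_contra hc'
      rw [not_le] at hc'
      have h7 : ((B n).minFac : ℝ) ^ 3 < (√c * log (f n)) ^ 2 := by
        refine lt_of_le_of_lt ?_ hBS
        exact_mod_cast hcube
      set u : ℝ := ((B n).minFac : ℝ) with hu
      set S : ℝ := √c * log (f n) with hS
      have h8 : S ^ 3 ≤ (u * 3) ^ 3 := pow_le_pow_left₀ (by linarith) hc'.le 3
      nlinarith [sq_nonneg S]
    exact (hh_one h64 h3 h6).trans (wt_one hmem huy)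

/-- density -/
theorem density {ω : ℕ → ℝ} (hω : Filter.Tendsto ω Filter.atTop Filter.atTop) :
    Filter.Tendsto (fun N : ℕ => (#{n ∈ Icc 1 N | ((B n).minFac : ℝ) ≤ n * log n / ω n} : ℝ) / N)
      Filter.atTop (nhds 0) := by
  classical
  rw [Metric.tendsto_atTop]
  intro ε hε
  set t := ε / 8 with ht
  have ht0 : 0 < t := by positivity
  -- Chebyshev
  have hx : Filter.Tendsto (fun N : ℕ => t * (N * log (N : ℝ))) Filter.atTop Filter.atTop :=
    Filter.Tendsto.const_mul_atTop ht0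
      (tendsto_natCast_atTop_atTop.atTop_mul_atTop₀
        (Real.tendsto_log_atTop.comp tendsto_natCast_atTop_atTop))
  have hlog4 : log 4 + 1 / 2 ≤ 2 := by
    have h1 := Real.log_two_lt_d9
    have h2 : log (4 : ℝ) = 2 * log 2 := by
      rw [show (4 : ℝ) = 2 ^ 2 by norm_num, Real.log_pow]
      norm_num
    linarith
  obtain ⟨n2, hn2⟩ := Filter.eventually_atTop.1 (hω.eventually_ge_atTop (1 / t))
  have hE : ∀ᶠ N : ℕ in Filter.atTop, (n2 : ℝ) / N < ε / 2 := by
    have h1 : Filter.Tendsto (fun N : ℕ => (n2 : ℝ) / N) Filter.atTop (nhds 0) :=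
      tendsto_const_div_atTop_nhds_zero_nat _
    exact h1.eventually (gt_mem_nhds (by positivity))
  obtain ⟨N0, hN0⟩ := Filter.eventually_atTop.1
    (((hx.eventually (Chebyshev.eventually_primeCounting_le (ε := 1 / 2) (by norm_num))).and
      ((Real.tendsto_log_atTop.comp tendsto_natCast_atTop_atTop).eventually_ge_atTop (1 / t))).and
      (hE.and (Filter.eventually_ge_atTop 2)))
  refine ⟨N0, fun N hN => ?_⟩
  obtain ⟨⟨hpi, hlogN⟩, hNε, hN2⟩ := hN0 N hN
  have hlogN' : 1 / t ≤ log (N : ℝ) := hlogN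
  have hN0' : (0 : ℝ) < N := by exact_mod_cast (show 0 < N by omega)
  have hlN : 0 < log (N : ℝ) := lt_of_lt_of_le (by positivity) hlogN'
  have htl : 1 ≤ t * log (N : ℝ) := by
    rw [div_le_iff₀ ht0] at hlogN'
    linarith
  set x := t * ((N : ℝ) * log N) with hxdef
  have hxN : (N : ℝ) ≤ x := by
    rw [hxdef]
    nlinarith
  have hlx : log (N : ℝ) ≤ log x := Real.log_le_log hN0' hxN
  have hx0 : 0 ≤ x := by linarith
  have hpi' : ((Nat.primeCounting ⌊x⌋₊ : ℕ) : ℝ) ≤ 2 * t * N := by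
    refine hpi.trans ?_
    rw [div_le_iff₀ (by linarith)]
    calc (log 4 + 1 / 2) * x ≤ 2 * x := mul_le_mul_of_nonneg_right hlog4 hx0
      _ = 2 * t * N * log N := by rw [hxdef]; ring
      _ ≤ 2 * t * N * log x := mul_le_mul_of_nonneg_left hlx (by positivity)
  have hsub : {n ∈ Icc 1 N | ((B n).minFac : ℝ) ≤ n * log n / ω n} ⊆
      range n2 ∪ {n ∈ Icc 1 N | ((B n).minFac : ℝ) ≤ x} := by
    intro n hn
    rw [Finset.mem_filter] at hn
    rw [Finset.mem_union]
    by_cases hnn : n < n2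
    · exact Or.inl (Finset.mem_range.2 hnn)
    · refine Or.inr (Finset.mem_filter.2 ⟨hn.1, hn.2.trans ?_⟩)
      have h1 := hn2 n (not_lt.1 hnn)
      have hIcc := Finset.mem_Icc.1 hn.1
      have hn1 : (1 : ℝ) ≤ n := by exact_mod_cast hIcc.1
      have hnN : (n : ℝ) ≤ N := by exact_mod_cast hIcc.2
      have hω0 : 0 < ω n := lt_of_lt_of_le (by positivity) h1
      have h2 : (n : ℝ) * log n ≤ N * log N := by
        have h3 : log (n : ℝ) ≤ log N := Real.log_le_log (by linarith) hnN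
        have h4 : 0 ≤ log (n : ℝ) := Real.log_nonneg hn1
        exact mul_le_mul hnN h3 h4 hN0'.le
      rw [div_le_iff₀ hω0]
      have h7 : 1 ≤ t * ω n := by
        rw [div_le_iff₀ ht0] at h1
        linarith
      have h8 : (N : ℝ) * log N * 1 ≤ (N : ℝ) * log N * (t * ω n) :=
        mul_le_mul_of_nonneg_left h7 (by positivity)
      have h9 : x * ω n = (N : ℝ) * log N * (t * ω n) := by rw [hxdef]; ring
      rw [h9]
      linarith
  have hcard := Finset.card_le_card hsub
  have hcard2 := (hcard.trans (Finset.card_union_le _ _)).trans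
    (Nat.add_le_add (le_of_eq (Finset.card_range n2)) (h.count_le N hx0))
  have hcard3 : (#{n ∈ Icc 1 N | ((B n).minFac : ℝ) ≤ n * log n / ω n} : ℝ) ≤ n2 + 2 * t * N := by
    have h1 : (#{n ∈ Icc 1 N | ((B n).minFac : ℝ) ≤ n * log n / ω n} : ℝ) ≤
        ((n2 + Nat.primeCounting ⌊x⌋₊ : ℕ) : ℝ) := by exact_mod_cast hcard2
    push_cast at h1
    linarith
  rw [Real.dist_eq, sub_zero, abs_of_nonneg (by positivity)]
  calc (#{n ∈ Icc 1 N | ((B n).minFac : ℝ) ≤ n * log n / ω n} : ℝ) / N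
      ≤ (n2 + 2 * t * N) / N := div_le_div_of_nonneg_right hcard3 hN0'.le
    _ = n2 / N + 2 * t := by field_simp
    _ < ε / 2 + 2 * t := by linarith
    _ ≤ ε := by rw [ht]; linarith

/-- either large gaps infinitely often or almost all terms have at most `k` prime factors -/
theorem dich {k : ℕ} (hk : 1 ≤ k) {A : ℝ} (hA : A < k + 1) :
    (∀ n0 : ℕ, ∃ n, n0 ≤ n ∧ log (f n) ^ A < B n) ∨
    Filter.Tendsto (fun N : ℕ => (#{n ∈ Icc 1 N | k < (B n).primeFactorsList.length} : ℝ) / N)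
      Filter.atTop (nhds 0) := by
  classical
  by_cases hinf : ∀ n0 : ℕ, ∃ n, n0 ≤ n ∧ log (f n) ^ A < B n
  · exact Or.inl hinf
  right
  push Not at hinf
  obtain ⟨n0, hn0⟩ := hinf
  -- the exponents
  have hk1 : (1 : ℝ) ≤ k := by exact_mod_cast hk
  obtain ⟨A', hA'1, hA'A, hA'k⟩ : ∃ A' : ℝ, 1 ≤ A' ∧ A ≤ A' ∧ A' < k + 1 :=
    ⟨max A 1, le_max_right _ _, le_max_left _ _, max_lt hA (by linarith)⟩
  obtain ⟨δ, hδ0, hδ1, hδ⟩ : ∃ δ : ℝ, 0 < δ ∧ δ < 1 ∧ A' < (k + 1) * (1 - δ) := by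
    refine ⟨(1 - A' / (k + 1)) / 2, ?_, ?_, ?_⟩
    · have : A' / (k + 1) < 1 := by rw [div_lt_one (by linarith)]; exact hA'k
      linarith
    · have : 0 < A' / (k + 1) := by positivity
      linarith
    · have h1 : (k + 1) * (A' / ((k : ℝ) + 1)) = A' := by field_simp
      nlinarith
  obtain ⟨n1, hn1⟩ := Filter.eventually_atTop.1
    ((h.log_tendsto.eventually_ge_atTop 1).and (Filter.eventually_ge_atTop (max n0 1)))
  have hL1 : ∀ n, n1 ≤ n → 1 ≤ log (f n : ℝ) := fun n hn => (hn1 n hn).1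
  have hn01 : n0 ≤ n1 := (le_max_left _ _).trans (hn1 n1 le_rfl).2
  have hn11 : 1 ≤ n1 := (le_max_right _ _).trans (hn1 n1 le_rfl).2
  have hB : ∀ n, n1 ≤ n → (B n : ℝ) ≤ log (f n) ^ A' := fun n hn =>
    (hn0 n (hn01.trans hn)).trans (Real.rpow_le_rpow_of_exponent_le (hL1 n hn) hA'A)
  -- growth
  have hlin : ∀ n, n1 ≤ n → log (f n : ℝ) ≤ log (f n1) + A' * ((n : ℝ) - n1) * log (log (f n)) := by
    intro n hn
    induction n, hn using Nat.le_induction with
    | base => simp
    | succ n hn ih =>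
      have hBn := hB n hn
      have hB0 : (0 : ℝ) < B n := by
        have := h.two n (by omega)
        exact_mod_cast (show 0 < B n by omega)
      have h1 := Real.log_le_log hB0 hBn
      rw [Real.log_rpow (by linarith [hL1 n hn])] at h1
      have h2 : log (log (f n : ℝ)) ≤ log (log (f (n + 1) : ℝ)) :=
        Real.log_le_log (by linarith [hL1 n hn]) (h.log_mono (by omega) (Nat.le_succ n))
      have h3 : (0 : ℝ) ≤ (n : ℝ) - n1 := by
        have : (n1 : ℝ) ≤ n := by exact_mod_cast hn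
        linarith
      have h4 : A' * ((n : ℝ) - n1) * log (log (f n : ℝ)) ≤
          A' * ((n : ℝ) - n1) * log (log (f (n + 1) : ℝ)) :=
        mul_le_mul_of_nonneg_left h2 (by positivity)
      have h5 : A' * log (log (f n : ℝ)) ≤ A' * log (log (f (n + 1) : ℝ)) :=
        mul_le_mul_of_nonneg_left h2 (by linarith)
      have hst := h.log_step (n := n) (by omega)
      push_cast
      linarith
  set C : ℝ := log (f n1) + A' / δ with hC
  have hC0 : 0 < C := by
    have := hL1 n1 le_rfl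
    have : 0 < A' / δ := by positivity
    linarith
  have hup : ∀ n, n1 ≤ n → log (f n : ℝ) ^ (1 - δ) ≤ C * n := by
    intro n hn
    have hL := hL1 n hn
    have hL0 : 0 < log (f n : ℝ) := by linarith
    have hnn : (1 : ℝ) ≤ n := by exact_mod_cast hn11.trans hn
    have h1 := hlin n hn
    have h2 : log (log (f n : ℝ)) ≤ log (f n : ℝ) ^ δ / δ := Real.log_le_rpow_div hL0.le hδ0
    have h3 : (1 : ℝ) ≤ log (f n : ℝ) ^ δ := Real.one_le_rpow hL hδ0.le
    have h4 : A' * ((n : ℝ) - n1) * log (log (f n : ℝ)) ≤ A' * n * (log (f n : ℝ) ^ δ / δ) := by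
      have h5 : 0 ≤ log (log (f n : ℝ)) := Real.log_nonneg hL
      have h6 : (n : ℝ) - n1 ≤ n := by
        have : (0 : ℝ) ≤ n1 := Nat.cast_nonneg _
        linarith
      calc A' * ((n : ℝ) - n1) * log (log (f n : ℝ)) ≤ A' * n * log (log (f n : ℝ)) :=
            mul_le_mul_of_nonneg_right (mul_le_mul_of_nonneg_left h6 (by linarith)) h5
        _ ≤ A' * n * (log (f n : ℝ) ^ δ / δ) := mul_le_mul_of_nonneg_left h2 (by positivity)
    have h7 : log (f n1 : ℝ) ≤ log (f n1 : ℝ) * n * log (f n : ℝ) ^ δ := by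
      have h8 : 1 ≤ (n : ℝ) * log (f n : ℝ) ^ δ := by nlinarith
      have h9 := mul_le_mul_of_nonneg_left h8 (show 0 ≤ log (f n1 : ℝ) by linarith [hL1 n1 le_rfl])
      linarith
    have h10 : log (f n : ℝ) ≤ C * n * log (f n : ℝ) ^ δ := by
      have h11 : C * n * log (f n : ℝ) ^ δ =
          log (f n1 : ℝ) * n * log (f n : ℝ) ^ δ + A' * n * (log (f n : ℝ) ^ δ / δ) := by
        rw [hC]; field_simp
      rw [h11]
      linarith
    have h12 : log (f n : ℝ) = log (f n : ℝ) ^ (1 - δ) * log (f n : ℝ) ^ δ := by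
      rw [← Real.rpow_add hL0]
      simp
    have h13 : log (f n : ℝ) ^ (1 - δ) * log (f n : ℝ) ^ δ ≤ C * n * log (f n : ℝ) ^ δ := by
      rw [← h12]
      exact h10
    exact le_of_mul_le_mul_right h13 (Real.rpow_pos_of_pos hL0 δ)
  -- `B n ≤ n ^ (k + 1)` for large `n`
  have hlim : ∀ᶠ n : ℕ in Filter.atTop, (C * n) ^ (A' / (1 - δ)) ≤ (n : ℝ) ^ (k + 1) := by
    have h1 : A' / (1 - δ) < k + 1 := by
      rw [div_lt_iff₀ (by linarith)]
      exact hδ
    have h2 : Filter.Tendsto (fun n : ℕ => (n : ℝ) ^ ((k : ℝ) + 1 - A' / (1 - δ))) Filter.atTop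
        Filter.atTop :=
      (tendsto_rpow_atTop (by linarith)).comp tendsto_natCast_atTop_atTop
    filter_upwards [h2.eventually_ge_atTop (C ^ (A' / (1 - δ))), Filter.eventually_ge_atTop 1]
      with n hn hn'
    have hn0 : (0 : ℝ) < n := by exact_mod_cast hn'
    rw [Real.mul_rpow hC0.le hn0.le]
    calc C ^ (A' / (1 - δ)) * (n : ℝ) ^ (A' / (1 - δ)) ≤
        (n : ℝ) ^ ((k : ℝ) + 1 - A' / (1 - δ)) * (n : ℝ) ^ (A' / (1 - δ)) :=
          mul_le_mul_of_nonneg_right hn (Real.rpow_nonneg hn0.le _)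
      _ = (n : ℝ) ^ (k + 1) := by
          rw [← Real.rpow_add hn0, ← Real.rpow_natCast]
          congr 1
          push_cast
          ring
  obtain ⟨n3, hn3⟩ := Filter.eventually_atTop.1 (hlim.and
    (((Real.tendsto_log_atTop.comp tendsto_natCast_atTop_atTop).eventually_gt_atTop 0).and
      (Filter.eventually_ge_atTop n1)))
  refine dens_mono (n0 := n3) (R := fun n => ((B n).minFac : ℝ) ≤ n * log n / log n)
    (fun n hn hlen => ?_)
    (h.density (ω := fun n : ℕ => log (n : ℝ)) (Real.tendsto_log_atTop.comp tendsto_natCast_atTop_atTop))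
  obtain ⟨h1, h2, h3⟩ := hn3 n hn
  have h2' : 0 < log (n : ℝ) := h2
  have hnn : 1 ≤ n := hn11.trans h3
  have hL := hL1 n h3
  have h4 := h.minFac_pow_le hnn (show k + 1 ≤ (B n).primeFactorsList.length from hlen)
  have h5 : log (f n : ℝ) ^ A' ≤ (C * n) ^ (A' / (1 - δ)) := by
    have h6 : log (f n : ℝ) ^ A' = (log (f n : ℝ) ^ (1 - δ)) ^ (A' / (1 - δ)) := by
      rw [← Real.rpow_mul (by linarith)]
      congr 1
      have : (1 - δ) ≠ 0 := by linarith
      field_simp
    rw [h6]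
    exact Real.rpow_le_rpow (Real.rpow_nonneg (by linarith) _) (hup n h3)
      (div_nonneg (by linarith) (by linarith))
  have h7 : (((B n).minFac : ℝ)) ^ (k + 1) ≤ (n : ℝ) ^ (k + 1) := by
    refine le_trans ?_ (((hB n h3).trans h5).trans h1)
    exact_mod_cast h4
  show ((B n).minFac : ℝ) ≤ n * log n / log n
  rw [mul_div_assoc, div_self h2'.ne', mul_one]
  exact le_of_pow_le_pow_left₀ (Nat.succ_ne_zero k) (Nat.cast_nonneg n) h7

end Bu

end Pool.Agent.helper5.Buss
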