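import Mathlib

set_option autoImplicit false

/-!
# Buss's sequence: coprimality, growth, counting
-/

namespace Pool.Agent.helper5.Buss

open Finset Nat

/-- what is used of the sequences -/
structure Bu (f B : ℕ → ℕ) : Prop where
  one : f 1 = 1
  mul : ∀ n, 1 ≤ n → f (n + 1) = f n * B n
  cop : ∀ n, 1 ≤ n → (f n).Coprime (B n)
  two : ∀ n, 1 ≤ n → 2 ≤ B n
  b1 : B 1 = 2

theorem bu_of {f B : ℕ → ℕ} (h1 : f 1 = 1)
    (h : ∀ n, 1 ≤ n → IsLeast {q : ℕ | q.Prime ∧ f n + 1 < q} (f n + B n) ∧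
      f (n + 1) = f n * B n) : Bu f B := by
  have hb : ∀ n, 1 ≤ n → 2 ≤ B n := by
    intro n hn
    have := (h n hn).1.1.2
    omega
  refine ⟨h1, fun n hn => (h n hn).2, ?_, hb, ?_⟩
  · have hpos : ∀ n, 1 ≤ n → 0 < f n := by
      intro n hn
      induction n, hn using Nat.le_induction with
      | base => rw [h1]; exact one_pos
      | succ n hn ih =>
        rw [(h n hn).2]
        exact Nat.mul_pos ih (by have := hb n hn; omega)
    intro n hn
    rw [Nat.coprime_iff_gcd_eq_one]
    by_contra hg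
    obtain ⟨p, hp, hpg⟩ := Nat.exists_prime_and_dvd hg
    have hpf : p ∣ f n := hpg.trans (Nat.gcd_dvd_left _ _)
    have hpB : p ∣ B n := hpg.trans (Nat.gcd_dvd_right _ _)
    have hq := (h n hn).1.1
    have h2 : p = f n + B n := (Nat.prime_dvd_prime_iff_eq hp hq.1).1 (dvd_add hpf hpB)
    have h3 := Nat.le_of_dvd (hpos n hn) hpf
    have h4 := hb n hn
    omega
  · have h3 := (h 1 le_rfl).1
    have h4 : f 1 + B 1 ≤ 3 := h3.2 ⟨Nat.prime_three, by omega⟩
    have h5 := hb 1 le_rfl
    omega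

/-- the sequences exist -/
theorem exists_seq : ∃ f B : ℕ → ℕ, f 1 = 1 ∧
    ∀ n, 1 ≤ n → IsLeast {q : ℕ | q.Prime ∧ f n + 1 < q} (f n + B n) ∧
      f (n + 1) = f n * B n := by
  have hex : ∀ m : ℕ, ∃ b : ℕ, IsLeast {q : ℕ | q.Prime ∧ m + 1 < q} (m + b) := by
    intro m
    obtain ⟨q, hq1, hq2⟩ := Nat.exists_infinite_primes (m + 2)
    have hne : {q : ℕ | q.Prime ∧ m + 1 < q}.Nonempty := ⟨q, hq2, hq1⟩
    refine ⟨sInf {q : ℕ | q.Prime ∧ m + 1 < q} - m, ?_⟩
    have h1 := Nat.sInf_mem hne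
    have h2 : m + (sInf {q : ℕ | q.Prime ∧ m + 1 < q} - m) = sInf {q : ℕ | q.Prime ∧ m + 1 < q} := by
      have := h1.2
      omega
    rw [h2]
    exact ⟨h1, fun x hx => Nat.sInf_le hx⟩
  choose b hb using hex
  let f : ℕ → ℕ := fun n => Nat.rec 1 (fun k x => if k = 0 then 1 else x * b x) n
  refine ⟨f, fun n => b (f n), rfl, fun n hn => ⟨hb _, ?_⟩⟩
  show (if n = 0 then 1 else f n * b (f n)) = f n * b (f n)
  rw [if_neg (by omega)]

namespace Bu

variable {f B : ℕ → ℕ} (h : Bu f B)
include h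

theorem pos (n : ℕ) (hn : 1 ≤ n) : 0 < f n := by
  induction n, hn using Nat.le_induction with
  | base => rw [h.one]; exact one_pos
  | succ n hn ih =>
    rw [h.mul n hn]
    exact Nat.mul_pos ih (by have := h.two n hn; omega)

theorem dvd_f {n m : ℕ} (hn : 1 ≤ n) (hnm : n < m) : B n ∣ f m := by
  induction m, hnm using Nat.le_induction with
  | base => rw [h.mul n hn]; exact Dvd.intro_left _ rfl
  | succ m hm ih =>
    rw [h.mul m (by omega)]
    exact ih.mul_right _

theorem coprime {n m : ℕ} (hn : 1 ≤ n) (hnm : n < m) : (B n).Coprime (B m) :=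
  Nat.Coprime.coprime_dvd_left (h.dvd_f hn hnm) (h.cop m (by omega))

theorem coprime' {n m : ℕ} (hn : 1 ≤ n) (hm : 1 ≤ m) (hnm : n ≠ m) : (B n).Coprime (B m) := by
  rcases lt_or_gt_of_ne hnm with h1 | h1
  · exact h.coprime hn h1
  · exact (h.coprime hm h1).symm

theorem disj {n m : ℕ} (hn : 1 ≤ n) (hm : 1 ≤ m) (hnm : n ≠ m) :
    Disjoint (B n).primeFactors (B m).primeFactors :=
  (h.coprime' hn hm hnm).disjoint_primeFactors

theorem minFac_prime {n : ℕ} (hn : 1 ≤ n) : (B n).minFac.Prime :=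
  Nat.minFac_prime (by have := h.two n hn; omega)

theorem minFac_mem {n : ℕ} (hn : 1 ≤ n) : (B n).minFac ∈ (B n).primeFactors := by
  rw [Nat.mem_primeFactors]
  exact ⟨h.minFac_prime hn, Nat.minFac_dvd _, by have := h.two n hn; omega⟩

theorem minFac_inj {n m : ℕ} (hn : 1 ≤ n) (hm : 1 ≤ m) (he : (B n).minFac = (B m).minFac) :
    n = m := by
  by_contra hne
  have h1 := Finset.disjoint_left.1 (h.disj hn hm hne) (h.minFac_mem hn)
  rw [he] at h1
  exact h1 (h.minFac_mem hm)

theorem three_le {n : ℕ} (hn : 2 ≤ n) {p : ℕ} (hp : p ∈ (B n).primeFactors) : 3 ≤ p := by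
  have hpp := Nat.prime_of_mem_primeFactors hp
  rcases hpp.eq_two_or_odd' with h2 | h2
  · exfalso
    have h3 := h.coprime (n := 1) (m := n) le_rfl (by omega)
    rw [h.b1] at h3
    have h4 : 2 ∣ B n := by rw [← h2]; exact Nat.dvd_of_mem_primeFactors hp
    have h5 := Nat.Coprime.eq_one_of_dvd h3 h4
    omega
  · have h3 := hpp.two_le
    rcases h2 with ⟨k, hk⟩
    omega

theorem prod_eq (N : ℕ) : f (N + 1) = ∏ n ∈ Icc 1 N, B n := by
  induction N with
  | zero => simp [h.one]
  | succ N ih =>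
    rw [h.mul (N + 1) (by omega), ih, Finset.prod_Icc_succ_top (by omega)]

end Bu

/-- a set of `k` primes has product at least the product of the first `k` primes -/
theorem prod_primes_le (P : Finset ℕ) (hP : ∀ p ∈ P, p.Prime) :
    ∏ i ∈ range P.card, nth Nat.Prime i ≤ ∏ p ∈ P, p := by
  induction P using Finset.induction_on_max with
  | empty => simp
  | insert m P hm ih =>
    have hmP : m ∉ P := fun hc => lt_irrefl _ (hm m hc)
    rw [Finset.card_insert_of_notMem hmP, Finset.prod_range_succ, Finset.prod_insert hmP, mul_comm]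
    have hmp : m.Prime := hP m (Finset.mem_insert_self _ _)
    refine Nat.mul_le_mul ?_ (ih fun p hp => hP p (Finset.mem_insert_of_mem hp))
    have h1 : P.card ≤ Nat.count Nat.Prime m := by
      rw [Nat.count_eq_card_filter_range]
      refine Finset.card_le_card fun p hp => ?_
      rw [Finset.mem_filter, Finset.mem_range]
      exact ⟨hm p hp, hP p (Finset.mem_insert_of_mem hp)⟩
    have h2 : nth Nat.Prime (Nat.count Nat.Prime m) = m := Nat.nth_count hmp
    calc nth Nat.Prime P.card ≤ nth Nat.Prime (Nat.count Nat.Prime m) :=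
          Nat.nth_monotone Nat.infinite_setOfPred_prime h1
      _ = m := h2

namespace Bu

variable {f B : ℕ → ℕ} (h : Bu f B)
include h

theorem prod_minFac (T : Finset ℕ) (hT : ∀ n ∈ T, 1 ≤ n) :
    ∏ i ∈ range T.card, nth Nat.Prime i ≤ ∏ n ∈ T, (B n).minFac := by
  have hinj : Set.InjOn (fun n => (B n).minFac) (T : Set ℕ) := fun n hn m hm he =>
    h.minFac_inj (hT n hn) (hT m hm) he
  have h1 := prod_primes_le (T.image fun n => (B n).minFac) (by
    intro p hp
    rw [Finset.mem_image] at hp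
    obtain ⟨n, hn, rfl⟩ := hp
    exact h.minFac_prime (hT n hn))
  rw [Finset.card_image_of_injOn hinj, Finset.prod_image hinj] at h1
  exact h1

/-- number of prime factors, with multiplicity -/
theorem minFac_pow_le {n : ℕ} (hn : 1 ≤ n) {j : ℕ} (hj : j ≤ (B n).primeFactorsList.length) :
    (B n).minFac ^ j ≤ B n := by
  have h2 := h.two n hn
  have h1 : (B n).minFac ^ (B n).primeFactorsList.length ≤ (B n).primeFactorsList.prod := by
    apply List.pow_card_le_prod
    intro x hx
    exact Nat.minFac_le_of_dvd (Nat.prime_of_mem_primeFactorsList hx).two_le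
      (Nat.dvd_of_mem_primeFactorsList hx)
  rw [Nat.prod_primeFactorsList (by omega)] at h1
  exact (Nat.pow_le_pow_right (h.minFac_prime hn).pos hj).trans h1

/-- growth and numbers of prime factors -/
theorem growth (N J : ℕ) : ∏ j ∈ Icc 1 J,
    (∏ i ∈ range (#{n ∈ Icc 1 N | j ≤ (B n).primeFactorsList.length}), nth Nat.Prime i) ≤
      f (N + 1) := by
  classical
  rw [h.prod_eq]
  have hI : ∀ n ∈ Icc 1 N, 1 ≤ n := fun n hn => (Finset.mem_Icc.1 hn).1
  have h1 : ∀ j ∈ Icc 1 J,
      ∏ i ∈ range (#{n ∈ Icc 1 N | j ≤ (B n).primeFactorsList.length}), nth Nat.Prime i ≤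
      ∏ n ∈ Icc 1 N, (if j ≤ (B n).primeFactorsList.length then (B n).minFac else 1) := by
    intro j _
    have h2 := h.prod_minFac ((Icc 1 N).filter fun n => j ≤ (B n).primeFactorsList.length)
      (fun n hn => hI n (Finset.mem_filter.1 hn).1)
    rw [Finset.prod_filter] at h2
    exact h2
  refine (Finset.prod_le_prod' h1).trans ?_
  rw [Finset.prod_comm]
  refine Finset.prod_le_prod' fun n hn => ?_
  rw [← Finset.prod_filter, Finset.prod_const]
  apply h.minFac_pow_le (hI n hn)
  have h3 : (Icc 1 J).filter (fun j => j ≤ (B n).primeFactorsList.length) ⊆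
      Icc 1 (B n).primeFactorsList.length := by
    intro j hj
    rw [Finset.mem_filter, Finset.mem_Icc] at hj
    exact Finset.mem_Icc.2 ⟨hj.1.1, hj.2⟩
  have h4 := Finset.card_le_card h3
  rwa [Nat.card_Icc, Nat.add_sub_cancel] at h4

/-- terms with a prime factor which is at most `x` -/
theorem count_le (N : ℕ) {x : ℝ} (hx : 0 ≤ x) :
    #{n ∈ Icc 1 N | ((B n).minFac : ℝ) ≤ x} ≤ Nat.primeCounting ⌊x⌋₊ := by
  classical
  rw [← Nat.primesLE_card_eq_primeCounting]
  refine Finset.card_le_card_of_injOn (fun n => (B n).minFac) ?_ ?_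
  · intro n hn
    rw [Finset.mem_coe, Finset.mem_filter, Finset.mem_Icc] at hn
    rw [Finset.mem_coe, Nat.mem_primesLE]
    exact ⟨Nat.le_floor hn.2, h.minFac_prime hn.1.1⟩
  · intro n hn m hm he
    rw [Finset.mem_coe, Finset.mem_filter, Finset.mem_Icc] at hn hm
    exact h.minFac_inj hn.1.1 hm.1.1 he

end Bu

end Pool.Agent.helper5.Buss
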